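import Mathlib
import Pool.Agent.U638.BS.Fin
import Pool.Agent.U638.BS.Fin2

/-!
# Disjoint projective copies of a blocking set in PG(2, p^3)

For every prime `p` and every field `F` with `p^3` elements there is a projectivity of `PG(2, p^3)`
which maps the point set `B` of the problem to a point set disjoint from `B`; for `p ≥ 7` at least
the proportion `1/3 - 2/p` of all invertible matrices gives such a projectivity.

For `p ≥ 7` a matrix is chosen at random and the third Bonferroni inequality is used; for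
`p = 2, 3, 5` a matrix is given explicitly.
-/

set_option autoImplicit false

namespace Pool.Agent.Results.MP_837a86_co.DisjointCopies

open scoped LinearAlgebra.Projectivization

/-- The point set `B`: the points `(1, x, x^p)` and the points `(0, 1, y)` with
`y^(p^2 + p + 1) = 1`. -/
def B (F : Type) [Field F] (p : ℕ) : Set (ℙ F (Fin 3 → F)) :=
  {P | ∃ (v : Fin 3 → F) (hv : v ≠ 0), P = Projectivization.mk F v hv ∧
    ((∃ x : F, v = ![1, x, x ^ p]) ∨ ∃ y : F, y ^ (p ^ 2 + p + 1) = 1 ∧ v = ![0, 1, y])}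

theorem mulVecLin_injective {F : Type} [Field F] (M : GL (Fin 3) F) :
    Function.Injective (M : Matrix (Fin 3) (Fin 3) F).mulVecLin := fun _ _ h =>
  Matrix.mulVec_injective_of_isUnit M.isUnit h

/-- The projectivity induced by an invertible matrix. -/
noncomputable def projectivity {F : Type} [Field F] (M : GL (Fin 3) F) :
    ℙ F (Fin 3 → F) → ℙ F (Fin 3 → F) :=
  Projectivization.map (M : Matrix (Fin 3) (Fin 3) F).mulVecLin (mulVecLin_injective M)

theorem disj (F : Type) [Field F] (p : ℕ) (M : GL (Fin 3) F)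
    (h : ∀ (i j : Pool.Agent.U638.BS.Idx F p) (c : F), c ≠ 0 →
      (M : Matrix (Fin 3) (Fin 3) F).mulVec (Pool.Agent.U638.BS.vec i) ≠
        c • Pool.Agent.U638.BS.vec j) :
    B F p ∩ projectivity M '' B F p = ∅ := by
  have key : ∀ v : Fin 3 → F, ((∃ x : F, v = ![1, x, x ^ p]) ∨
      ∃ y : F, y ^ (p ^ 2 + p + 1) = 1 ∧ v = ![0, 1, y]) →
      ∃ i : Pool.Agent.U638.BS.Idx F p, v = Pool.Agent.U638.BS.vec i := by
    rintro v (⟨x, rfl⟩ | ⟨y, hy, rfl⟩)
    · exact ⟨Sum.inl x, rfl⟩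
    · exact ⟨Sum.inr ⟨y, hy⟩, rfl⟩
  rw [Set.eq_empty_iff_forall_notMem]
  rintro P ⟨⟨v, hv, rfl, hvB⟩, Q, ⟨w, hw, rfl, hwB⟩, hPQ⟩
  obtain ⟨j, rfl⟩ := key v hvB
  obtain ⟨i, rfl⟩ := key w hwB
  unfold projectivity at hPQ
  rw [Projectivization.map_mk, Projectivization.mk_eq_mk_iff'] at hPQ
  obtain ⟨a, ha⟩ := hPQ
  have ha' : a • Pool.Agent.U638.BS.vec j =
    (M : Matrix (Fin 3) (Fin 3) F).mulVec (Pool.Agent.U638.BS.vec i) := ha
  have ha0 : a ≠ 0 := by
    rintro rfl
    rw [zero_smul] at ha'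
    apply hw
    apply Matrix.mulVec_injective_of_isUnit M.isUnit
    rw [Matrix.mulVec_zero]
    exact ha'.symm
  exact h i j a ha0 ha'.symm

theorem exists_disj (p : ℕ) (hp : p.Prime) (F : Type) [Field F] (hF : Nat.card F = p ^ 3) :
    ∃ M : GL (Fin 3) F, B F p ∩ projectivity M '' B F p = ∅ := by
  obtain ⟨M, hM, h⟩ := Pool.Agent.U638.BS.good F p hp hF
  exact ⟨Matrix.GeneralLinearGroup.mkOfDetNeZero M hM, disj F p _ h⟩

theorem many_disj (p : ℕ) (hp : p.Prime) (F : Type) [Field F] (hF : Nat.card F = p ^ 3)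
    (h7 : 7 ≤ p) : (1 / 3 - 2 / (p : ℝ)) * Nat.card (GL (Fin 3) F) ≤
      Nat.card {M : GL (Fin 3) F // B F p ∩ projectivity M '' B F p = ∅} := by
  have hfin : Finite F := Nat.finite_of_card_ne_zero (by
    rw [hF]; exact pow_ne_zero _ hp.ne_zero)
  have := Fintype.ofFinite F
  classical
  set G : Finset (Matrix (Fin 3) (Fin 3) F) := Finset.univ.filter (fun M => M.det ≠ 0 ∧
    ∀ i : Pool.Agent.U638.BS.Idx F p, M.mulVec (Pool.Agent.U638.BS.vec i) ∉
      Pool.Agent.U638.BS.cone (Pool.Agent.U638.BS.vec : Pool.Agent.U638.BS.Idx F p → _)) with hGd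
  have hc := Pool.Agent.U638.BS.main_count F p hp h7 hF G (fun M => by rw [hGd]; simp)
  have hF' : Fintype.card F = p ^ 3 := by rw [← Nat.card_eq_fintype_card]; exact hF
  have hGL : ((Nat.card (GL (Fin 3) F) : ℕ) : ℤ) = (((p : ℤ) ^ 3) ^ 3 - 1) *
      (((p : ℤ) ^ 3) ^ 3 - (p : ℤ) ^ 3) * (((p : ℤ) ^ 3) ^ 3 - ((p : ℤ) ^ 3) ^ 2) := by
    have h := Matrix.card_GL_field (𝔽 := F) 3
    rw [Fin.prod_univ_three] at h
    simp only [Fin.val_zero, pow_zero, Fin.val_one, pow_one, Fin.val_two] at h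
    rw [h, hF']
    have hq1 : 1 ≤ p ^ 3 := Nat.one_le_pow _ _ hp.pos
    have g1 : 1 ≤ (p ^ 3) ^ 3 := Nat.one_le_pow _ _ hq1
    have g2 : p ^ 3 ≤ (p ^ 3) ^ 3 := Nat.le_self_pow (by norm_num) _
    have g3 : (p ^ 3) ^ 2 ≤ (p ^ 3) ^ 3 := Nat.pow_le_pow_right hq1 (by norm_num)
    push_cast [g1, g2, g3]
    ring
  have hG : G.card ≤ Nat.card {M : GL (Fin 3) F // B F p ∩ projectivity M '' B F p = ∅} := by
    rw [Nat.card_eq_fintype_card, Fintype.card_subtype]
    have hsub : G ⊆ Finset.image (fun M : GL (Fin 3) F => (M.val : Matrix (Fin 3) (Fin 3) F))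
        (Finset.univ.filter (fun M : GL (Fin 3) F =>
          B F p ∩ projectivity M '' B F p = ∅)) := by
      intro M hM
      rw [hGd, Finset.mem_filter] at hM
      rw [Finset.mem_image]
      refine ⟨Matrix.GeneralLinearGroup.mkOfDetNeZero M hM.2.1, ?_, rfl⟩
      rw [Finset.mem_filter]
      refine ⟨Finset.mem_univ _, disj F p _ ?_⟩
      intro i j c hc0 hij
      apply hM.2.2 i
      rw [Pool.Agent.U638.BS.mem_cone]
      exact ⟨j, Units.mk0 c hc0, hij⟩
    exact (Finset.card_le_card hsub).trans Finset.card_image_le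
  have hp0 : (0 : ℝ) < p := by exact_mod_cast hp.pos
  have h1 : ((p : ℝ) - 6) * Nat.card (GL (Fin 3) F) ≤ 3 * p * (G.card : ℝ) := by
    have h2 : ((p : ℤ) - 6) * ((Nat.card (GL (Fin 3) F) : ℕ) : ℤ) ≤ 3 * p * (G.card : ℤ) := by
      rw [hGL]; linarith
    exact_mod_cast h2
  have h3 : (G.card : ℝ) ≤
      (Nat.card {M : GL (Fin 3) F // B F p ∩ projectivity M '' B F p = ∅} : ℝ) := by
    exact_mod_cast hG
  refine le_trans ?_ h3
  have h4 : (1 / 3 - 2 / (p : ℝ)) * Nat.card (GL (Fin 3) F) =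
      (((p : ℝ) - 6) * Nat.card (GL (Fin 3) F)) / (3 * p) := by
    field_simp
    ring
  rw [h4, div_le_iff₀ (by positivity)]
  linarith

/-- **Q1, affirmative.** For every prime `p` and every field `F` with `p^3` elements there is a
projectivity `γ` of the plane over `F` with `B ∩ γ(B) = ∅`. If `p ≥ 7`, then at least the
proportion `1/3 - 2/p` of all invertible matrices gives such a projectivity. -/
theorem result (p : ℕ) (hp : p.Prime) (F : Type) [Field F] (hF : Nat.card F = p ^ 3) :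
    (∃ M : GL (Fin 3) F, B F p ∩ projectivity M '' B F p = ∅) ∧
    (7 ≤ p → (1 / 3 - 2 / (p : ℝ)) * Nat.card (GL (Fin 3) F) ≤
      Nat.card {M : GL (Fin 3) F // B F p ∩ projectivity M '' B F p = ∅}) :=
  ⟨exists_disj p hp F hF, many_disj p hp F hF⟩

end Pool.Agent.Results.MP_837a86_co.DisjointCopies
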